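import Mathlib
import Pool.Agent.W586.CS.Stm

/-!
Project CS (helper586): operators and the filtration.
-/

set_option autoImplicit false
open MvPolynomial

namespace Pool.Agent.W928.CS

open Pool.Agent.W586.CS

theorem coeff_pd {d : ℕ} (j : Fin d) (p : MvPolynomial (Fin d) ℝ) (s : Fin d →₀ ℕ) :
    coeff s (pderiv j p) = ((s j : ℝ) + 1) * coeff (s + Finsupp.single j 1) p := by
  classical
  induction p using MvPolynomial.induction_on' with
  | monomial u a =>
    rw [pderiv_monomial, coeff_monomial, coeff_monomial]
    by_cases h : u = s + Finsupp.single j 1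
    · subst h
      simp
      ring
    · rw [if_neg h, mul_zero]
      split_ifs with h2
      · by_cases h3 : u j = 0
        · rw [h3]; simp
        · exfalso
          apply h
          rw [← h2]
          ext i
          by_cases hi : i = j
          · subst hi
            simp
            omega
          · simp [Ne.symm hi]
      · rfl
  | add p q hp hq =>
    rw [map_add, coeff_add, coeff_add, hp, hq]
    ring

theorem coeff_xpd {d : ℕ} (j : Fin d) (p : MvPolynomial (Fin d) ℝ) (s : Fin d →₀ ℕ) :
    coeff s (X j * pderiv j p) = (s j : ℝ) * coeff s p := by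
  classical
  rw [coeff_X_mul']
  split_ifs with h
  · have hs : s j ≠ 0 := Finsupp.mem_support_iff.1 h
    rw [coeff_pd]
    have e : s - Finsupp.single j 1 + Finsupp.single j 1 = s := by
      ext i
      by_cases hi : i = j
      · subst hi
        simp
        omega
      · simp [Ne.symm hi]
    rw [e]
    congr 1
    have : (s - Finsupp.single j 1 : Fin d →₀ ℕ) j = s j - 1 := by simp
    rw [this]
    have h1 : 1 ≤ s j := by omega
    push_cast [Nat.cast_sub h1]
    ring
  · have hs : s j = 0 := by
      by_contra hcon
      exact h (Finsupp.mem_support_iff.2 hcon)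
    rw [hs]
    simp

theorem deg_add_single {d : ℕ} (s : Fin d →₀ ℕ) (j : Fin d) :
    (s + Finsupp.single j 1).degree = s.degree + 1 := by
  rw [map_add, Finsupp.degree_single]

theorem deg_sub_single {d : ℕ} (s : Fin d →₀ ℕ) (j : Fin d) (h : j ∈ s.support) :
    (s - Finsupp.single j 1).degree + 1 = s.degree := by
  have e : s - Finsupp.single j 1 + Finsupp.single j 1 = s := by
    have hs : s j ≠ 0 := Finsupp.mem_support_iff.1 h
    ext i
    by_cases hi : i = j
    · subst hi
      simp
      omega
    · simp [Ne.symm hi]
  rw [← deg_add_single, e]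

theorem mem_Fil {d : ℕ} {ι : Type} {m : ℕ} {f : V d ι} :
    f ∈ Fil d ι m ↔ ∀ I a s, coeff s (f I a) ≠ 0 → s.degree + I.card ≤ m := Iff.rfl

theorem card_fl {d : ℕ} (j : Fin d) (I : Finset (Fin d)) :
    (j ∈ I → fl j I = I.erase j ∧ (fl j I).card + 1 = I.card) ∧
      (j ∉ I → fl j I = insert j I ∧ (fl j I).card = I.card + 1) := by
  constructor
  · intro h
    have e : fl j I = I.erase j := by unfold fl; rw [if_pos h]
    refine ⟨e, ?_⟩
    rw [e, Finset.card_erase_of_mem h]
    have := Finset.card_pos.2 ⟨j, h⟩
    omega
  · intro h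
    have e : fl j I = insert j I := by unfold fl; rw [if_neg h]
    refine ⟨e, ?_⟩
    rw [e, Finset.card_insert_of_notMem h]

theorem main : S_FIL2 := by
  classical
  intro d ι _ m
  refine ⟨?_, ?_, ?_, ?_⟩
  · intro f hf I a s hs
    have := hf I a s hs
    omega
  · intro f hf
    unfold B0
    rw [LinearMap.sum_apply]
    refine Submodule.sum_mem _ fun j _ => ?_
    intro I a s hs
    have e : ((G ι j ∘ₗ Xm ι j + Cc ι j ∘ₗ (Dm ι j - Xm ι j)) f) I a =
        sg j I • (X j * f (fl j I) a) +
          (ep j I * sg j I) • (pderiv j (f (fl j I) a) - X j * f (fl j I) a) := rfl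
    rw [e] at hs
    by_cases hj : j ∈ I
    · have hep : ep j I = 1 := by unfold ep; rw [if_pos hj]
      rw [hep, one_mul, ← smul_add, add_sub_cancel, coeff_smul, coeff_pd] at hs
      have h1 : coeff (s + Finsupp.single j 1) (f (fl j I) a) ≠ 0 := by
        intro h
        rw [h] at hs
        simp at hs
      have h2 := hf (fl j I) a _ h1
      rw [deg_add_single] at h2
      have h3 := ((card_fl j I).1 hj).2
      omega
    · have hep : ep j I = -1 := by unfold ep; rw [if_neg hj]
      have h3 := ((card_fl j I).2 hj).2
      rw [hep, neg_one_mul, coeff_add, coeff_smul, coeff_smul, coeff_sub, coeff_pd,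
        coeff_X_mul'] at hs
      by_cases h4 : coeff (s + Finsupp.single j 1) (f (fl j I) a) = 0
      · rw [h4] at hs
        split_ifs at hs with h5
        · have h6 : coeff (s - Finsupp.single j 1) (f (fl j I) a) ≠ 0 := by
            intro h
            rw [h] at hs
            simp at hs
          have h7 := hf (fl j I) a _ h6
          have h8 := deg_sub_single s j h5
          omega
        · simp at hs
      · have h2 := hf (fl j I) a _ h4
        rw [deg_add_single] at h2
        omega
  · intro A f hf
    unfold KK
    rw [LinearMap.neg_apply, LinearMap.sum_apply]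
    refine Submodule.neg_mem _ (Submodule.sum_mem _ fun j _ => ?_)
    intro I a s hs
    have e : ((G ι j ∘ₗ Am (A j)) f) I a = sg j I • ∑ b, A j a b • f (fl j I) b := rfl
    rw [e, coeff_smul, coeff_sum] at hs
    have h1 : ∃ b, coeff s (f (fl j I) b) ≠ 0 := by
      by_contra hcon
      push Not at hcon
      apply hs
      rw [Finset.sum_eq_zero fun b _ => by rw [coeff_smul, hcon b, smul_zero], smul_zero]
    obtain ⟨b, hb⟩ := h1
    have h2 := hf (fl j I) b s hb
    by_cases hj : j ∈ I
    · have h3 := ((card_fl j I).1 hj).2
      omega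
    · have h3 := ((card_fl j I).2 hj).2
      omega
  · intro f hf I a s hs
    by_contra hcon
    push Not at hcon
    apply hs
    have e : (MM f - ((m : ℝ) + 1) • f) I a =
        ∑ j : Fin d, (X j * pderiv j (f I a) - (1 / 2 : ℝ) • pderiv j (pderiv j (f I a)))
          + (I.card : ℝ) • f I a - ((m : ℝ) + 1) • f I a := rfl
    rw [e, coeff_sub, coeff_add, coeff_sum, coeff_smul, coeff_smul]
    have h1 : ∀ j : Fin d, coeff s (X j * pderiv j (f I a) -
        (1 / 2 : ℝ) • pderiv j (pderiv j (f I a))) = (s j : ℝ) * coeff s (f I a) := by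
      intro j
      rw [coeff_sub, coeff_xpd, coeff_smul, coeff_pd, coeff_pd]
      have h2 : coeff (s + Finsupp.single j 1 + Finsupp.single j 1) (f I a) = 0 := by
        by_contra h3
        have h4 := hf I a _ h3
        rw [deg_add_single, deg_add_single] at h4
        omega
      rw [h2]
      simp
    rw [Finset.sum_congr rfl fun j _ => h1 j, ← Finset.sum_mul]
    have h5 : ∑ j : Fin d, (s j : ℝ) = (s.degree : ℝ) := by
      rw [Finsupp.degree_eq_sum]
      push_cast
      rfl
    rw [h5, smul_eq_mul, smul_eq_mul, ← add_mul, ← sub_mul]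
    by_cases h6 : coeff s (f I a) = 0
    · rw [h6, mul_zero]
    · have h7 := hf I a s h6
      have h8 : s.degree + I.card = m + 1 := by omega
      have h9 : (s.degree : ℝ) + (I.card : ℝ) = (m : ℝ) + 1 := by exact_mod_cast h8
      rw [h9, sub_self, zero_mul]

end Pool.Agent.W928.CS
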